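import Mathlib

namespace Pool.Agent.H.MP_c7f57c_an

open Filter Topology Finset MeasureTheory

def N (n : ℕ) : ℕ := ∏ i ∈ range n, (i + 3)

def D (n : ℕ) : Finset ℕ := (range (n + 3)).erase 1

def K : Set ℝ := {x | ∃ d : ℕ → ℕ, (∀ n, d n ∈ D n) ∧ HasSum (fun n => (d n : ℝ) / N (n + 1)) x}

lemma N_succ (n : ℕ) : N (n + 1) = N n * (n + 3) := prod_range_succ _ _

lemma N_ge (n : ℕ) : n + 1 ≤ N n := by
  induction n with
  | zero => simp [N]
  | succ n ih => rw [N_succ]; nlinarith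

lemma N_pos (n : ℕ) : (0 : ℝ) < N n := by
  have := N_ge n
  exact_mod_cast (by omega : 0 < N n)

lemma N_mono : Monotone N := monotone_nat_of_le_succ fun n => by rw [N_succ]; nlinarith

lemma D_card (n : ℕ) : (D n).card = n + 2 := by
  rw [D, card_erase_of_mem (by simp), card_range]; omega

lemma D_le {n d : ℕ} (h : d ∈ D n) : d ≤ n + 2 := by
  have := mem_range.1 (mem_of_mem_erase h)
  omega

lemma invN : Tendsto (fun n => (1 : ℝ) / N n) atTop (𝓝 0) := by
  refine squeeze_zero (fun n => by have := N_pos n; positivity) (fun n => ?_)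
    tendsto_one_div_add_atTop_nhds_zero_nat
  apply one_div_le_one_div_of_le (by positivity)
  exact_mod_cast N_ge n

lemma tel (n : ℕ) : HasSum (fun m => (((m + n : ℕ) : ℝ) + 2) / N (m + n + 1)) (1 / N n) := by
  rw [hasSum_iff_tendsto_nat_of_nonneg (fun m => by have := N_pos (m + n + 1); positivity)]
  have e : ∀ m : ℕ, (((m + n : ℕ) : ℝ) + 2) / N (m + n + 1)
      = 1 / N (m + n) - 1 / N (m + 1 + n) := by
    intro m
    have h1 := N_pos (m + n)
    rw [show m + 1 + n = m + n + 1 by ring, N_succ]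
    push_cast
    field_simp
    ring
  simp only [e]
  have : ∀ k, ∑ m ∈ range k, ((1 : ℝ) / N (m + n) - 1 / N (m + 1 + n))
      = 1 / N n - 1 / N (k + n) := by
    intro k
    have := sum_range_sub' (fun m => (1 : ℝ) / N (m + n)) k
    simpa using this
  simp only [this]
  have h := (invN.comp (tendsto_add_atTop_nat n)).const_sub (1 / (N n : ℝ))
  simpa using h

noncomputable def pt (n : ℕ) (d : Fin n → ℕ) : ℝ := ∑ m : Fin n, (d m : ℝ) / N (m + 1)

noncomputable def S (n : ℕ) : Finset (Fin n → ℕ) := Fintype.piFinset fun m : Fin n => D m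

lemma S_card (n : ℕ) : (S n).card = ∏ m : Fin n, ((m : ℕ) + 2) := by
  simp [S, D_card]

lemma S_card' (n : ℕ) : (S n).card * (n + 2) = 2 * N n := by
  rw [S_card, Fin.prod_univ_eq_prod_range (fun m => m + 2)]
  induction n with
  | zero => simp [N]
  | succ n ih => rw [prod_range_succ, N_succ, ih]; ring

lemma pt_mem {n : ℕ} {d : Fin n → ℕ} (h : d ∈ S n) : pt n d ∈ K := by
  refine ⟨fun m => if hm : m < n then d ⟨m, hm⟩ else 0, fun m => ?_, ?_⟩
  · by_cases hm : m < n
    · simp only [hm, dif_pos]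
      exact Fintype.mem_piFinset.1 h ⟨m, hm⟩
    · simp [hm, D]
  · have : pt n d = ∑ m ∈ range n,
        (((if hm : m < n then d ⟨m, hm⟩ else 0 : ℕ) : ℝ) / N (m + 1)) := by
      rw [pt, ← Fin.sum_univ_eq_sum_range
        (fun m => (((if hm : m < n then d ⟨m, hm⟩ else 0 : ℕ) : ℝ) / N (m + 1)))]
      simp
    rw [this]
    apply hasSum_sum_of_ne_finset_zero
    intro m hm
    simp [mem_range.not.1 hm]

lemma cover {x : ℝ} (hx : x ∈ K) (n : ℕ) :
    ∃ d ∈ S n, x ∈ Set.Icc (pt n d) (pt n d + 1 / N n) := by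
  obtain ⟨d, hd, hs⟩ := hx
  refine ⟨fun m => d m, Fintype.mem_piFinset.2 fun m => hd m, ?_⟩
  have h1 := (hasSum_nat_add_iff' n).2 hs
  have e : pt n (fun m => d m) = ∑ m ∈ range n, (d m : ℝ) / N (m + 1) :=
    Fin.sum_univ_eq_sum_range (fun m => (d m : ℝ) / N (m + 1)) n
  rw [e]
  have h2 := h1.nonneg fun m => by have := N_pos (m + n + 1); positivity
  have h3 := hasSum_le (fun m => by
    apply div_le_div_of_nonneg_right _ (N_pos _).le
    exact_mod_cast D_le (hd (m + n))) h1 (tel n)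
  constructor <;> linarith

lemma K_null : volume K = 0 := by
  have h : ∀ n : ℕ, volume K ≤ ENNReal.ofReal (2 / ((n : ℝ) + 2)) := by
    intro n
    have h1 : K ⊆ ⋃ d ∈ S n, Set.Icc (pt n d) (pt n d + 1 / N n) := by
      intro x hx
      obtain ⟨d, hd, h⟩ := cover hx n
      exact Set.mem_biUnion hd h
    refine (measure_mono h1).trans ((measure_biUnion_finset_le _ _).trans (le_of_eq ?_))
    simp only [Real.volume_Icc, add_sub_cancel_left, sum_const, nsmul_eq_mul]
    rw [← ENNReal.ofReal_natCast, ← ENNReal.ofReal_mul (by positivity)]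
    congr 1
    have h2 : ((S n).card : ℝ) * (n + 2) = 2 * N n := by exact_mod_cast S_card' n
    have := N_pos n
    field_simp
    linarith
  have h2 : Tendsto (fun n : ℕ => ENNReal.ofReal (2 / ((n : ℝ) + 2))) atTop (𝓝 0) := by
    rw [← ENNReal.ofReal_zero]
    apply ENNReal.tendsto_ofReal
    exact tendsto_const_nhds.div_atTop
      (tendsto_atTop_add_const_right _ _ tendsto_natCast_atTop_atTop)
  exact le_antisymm (ge_of_tendsto' h2 h) bot_le

lemma K_sub {x : ℝ} (hx : x ∈ K) : 0 ≤ x ∧ x ≤ 1 := by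
  obtain ⟨d, -, h⟩ := cover hx 0
  simpa [pt, N] using h

lemma zero_mem : (0 : ℝ) ∈ K := ⟨fun _ => 0, fun n => by simp [D], by simpa using hasSum_zero⟩

lemma one_mem : (1 : ℝ) ∈ K := ⟨fun n => n + 2, fun n => by simp [D], by
  simpa [N] using tel 0⟩

lemma K_compact : IsCompact K := by
  have hb : ∀ (n : ℕ) (d : ℕ → ℕ), d ∈ Set.pi Set.univ (fun n => (D n : Set ℕ)) →
      ‖(d n : ℝ) / N (n + 1)‖ ≤ (((n + 0 : ℕ) : ℝ) + 2) / N (n + 0 + 1) := by
    intro n d hd
    have := N_pos (n + 1)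
    rw [Real.norm_of_nonneg (by positivity)]
    apply div_le_div_of_nonneg_right _ this.le
    exact_mod_cast D_le (hd n trivial)
  have e : K = (fun d : ℕ → ℕ => ∑' n, (d n : ℝ) / N (n + 1)) ''
      Set.pi Set.univ (fun n => (D n : Set ℕ)) := by
    ext x
    constructor
    · rintro ⟨d, hd, hs⟩
      exact ⟨d, fun n _ => hd n, hs.tsum_eq⟩
    · rintro ⟨d, hd, rfl⟩
      exact ⟨d, fun n => hd n trivial,
        (Summable.of_norm_bounded (tel 0).summable fun n => hb n d hd).hasSum⟩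
  rw [e]
  refine (isCompact_univ_pi fun n => (D n).finite_toSet.isCompact).image_of_continuousOn ?_
  refine continuousOn_tsum (fun n => Continuous.continuousOn ?_) (tel 0).summable hb
  exact (continuous_of_discreteTopology (f := fun k : ℕ => (k : ℝ) / N (n + 1))).comp
    (continuous_apply n)

noncomputable def E (s : ℝ) : ℂ := Complex.exp (2 * Real.pi * Complex.I * s)

lemma E_add (s t : ℝ) : E (s + t) = E s * E t := by
  simp only [E]; rw [← Complex.exp_add]; push_cast; ring_nf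

lemma E_zero : E 0 = 1 := by simp [E]

lemma E_eq (s : ℝ) : E s = Complex.exp (Complex.I * (2 * Real.pi * s : ℝ)) := by
  simp only [E]; push_cast; ring_nf

lemma E_norm (s : ℝ) : ‖E s‖ = 1 := by
  rw [E_eq, mul_comm]; exact Complex.norm_exp_ofReal_mul_I _

lemma E_nat (d : ℕ) (s : ℝ) : E (d * s) = E s ^ d := by
  simp only [E]; rw [← Complex.exp_nat_mul]; push_cast; ring_nf

lemma E_sum {ι : Type} (s : Finset ι) (f : ι → ℝ) : E (∑ i ∈ s, f i) = ∏ i ∈ s, E (f i) := by
  simp only [E]; rw [← Complex.exp_sum]; push_cast; rw [mul_sum]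

lemma E_low (s : ℝ) (h : |s| ≤ 1 / 2) : 4 * |s| ≤ ‖E s - 1‖ := by
  rw [E_eq, Complex.norm_exp_I_mul_ofReal_sub_one, show 2 * Real.pi * s / 2 = Real.pi * s by ring,
    norm_mul, Real.norm_eq_abs, Real.norm_eq_abs, abs_two]
  have hp := Real.pi_pos
  have h1 : |Real.pi * s| = Real.pi * |s| := by rw [abs_mul, abs_of_pos hp]
  have := Real.mul_abs_le_abs_sin (x := Real.pi * s) (by rw [h1]; nlinarith)
  rw [h1, show 2 / Real.pi * (Real.pi * |s|) = 2 * |s| by field_simp] at this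
  linarith

lemma four_E (k : ℤ) (t : ℝ) : fourier k (t : AddCircle (1 : ℝ)) = E (k * t) := by
  rw [fourier_coe_apply, E]; push_cast; ring_nf

noncomputable def F (k : ℤ) (m : ℕ) : ℂ := (∑ d ∈ D m, E (k / N (m + 1)) ^ d) / (m + 2)

lemma sum_bd (w : ℂ) (hw : ‖w‖ = 1) (s : Finset ℕ) : ‖∑ d ∈ s, w ^ d‖ ≤ s.card := by
  refine (norm_sum_le _ _).trans (le_of_eq ?_)
  simp [hw]

lemma nm2 (m : ℕ) : ‖((m : ℂ) + 2)‖ = m + 2 := by
  have : ((m : ℂ) + 2) = ((m + 2 : ℕ) : ℂ) := by push_cast; ring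
  rw [this, Complex.norm_natCast]; push_cast; ring

lemma F_le (k : ℤ) (m : ℕ) : ‖F k m‖ ≤ 1 := by
  rw [F, norm_div, nm2, div_le_one (by positivity)]
  refine (sum_bd _ (E_norm _) _).trans ?_
  rw [D_card]; push_cast; rfl

lemma FF (k : ℤ) (m : ℕ) (h1 : (N (m + 1) : ℝ) ≤ 2 * |(k : ℝ)|)
    (h2 : 2 * |(k : ℝ)| ≤ N (m + 2)) : ‖F k m * F k (m + 1)‖ ≤ 6 / (m + 2) := by
  have p1 := N_pos (m + 1)
  have p2 := N_pos (m + 2)
  have e2 : (N (m + 2) : ℝ) = N (m + 1) * (m + 4) := by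
    rw [N_succ (m + 1)]; push_cast; ring
  set θ : ℝ := k / N (m + 2) with hθ
  set w := E θ with hw
  have hw' : E (k / N (m + 1)) = w ^ (m + 4) := by
    rw [hw, ← E_nat, hθ, e2]
    congr 1
    push_cast
    field_simp
  have nw : ‖w‖ = 1 := E_norm _
  have nw' : ‖w ^ (m + 4)‖ = 1 := by rw [norm_pow, nw, one_pow]
  have a1 : |θ| ≤ 1 / 2 := by
    rw [hθ, abs_div, abs_of_pos p2, div_le_iff₀ p2]; linarith
  have a2 : 1 ≤ 2 * (m + 4) * |θ| := by
    rw [hθ, abs_div, abs_of_pos p2, e2, ← mul_div_assoc, le_div_iff₀ (by positivity)]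
    nlinarith
  have a3 := E_low θ a1
  set G := ∑ d ∈ range (m + 4), w ^ d with hG
  set G' := ∑ d ∈ range (m + 3), (w ^ (m + 4)) ^ d with hG'
  have g1 : G * (w - 1) = w ^ (m + 4) - 1 := geom_sum_mul _ _
  have g2 : G' * (w ^ (m + 4) - 1) = (w ^ (m + 4)) ^ (m + 3) - 1 := geom_sum_mul _ _
  have g3 : ‖G' * G‖ * ‖w - 1‖ ≤ 2 := by
    rw [← norm_mul, mul_assoc, g1, g2]
    refine (norm_sub_le _ _).trans ?_
    rw [norm_pow, nw', one_pow, norm_one]; norm_num
  have g4 : ‖G' * G‖ ≤ m + 4 := by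
    have := norm_nonneg (G' * G)
    have h5 : 2 ≤ (m + 4) * ‖w - 1‖ := by
      have : (0 : ℝ) ≤ m + 4 := by positivity
      nlinarith
    by_contra hc
    push Not at hc
    have h6 : 0 < ‖w - 1‖ := by
      by_contra h7
      have : ‖w - 1‖ = 0 := le_antisymm (not_lt.1 h7) (norm_nonneg _)
      rw [this] at h5; linarith
    nlinarith
  have g5 : ‖G‖ ≤ m + 4 := by simpa using sum_bd w nw (range (m + 4))
  have g6 : ‖G'‖ ≤ m + 3 := by simpa using sum_bd _ nw' (range (m + 3))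
  have f1 : F k m = (G' - w ^ (m + 4)) / (m + 2) := by
    rw [F, hw', D, sum_erase_eq_sub (by simp), pow_one]
  have f2 : F k (m + 1) = (G - w) / ((m + 1 : ℕ) + 2) := by
    rw [F, D, sum_erase_eq_sub (by simp), pow_one]
  rw [f1, f2, div_mul_div_comm, norm_div, norm_mul ((m : ℂ) + 2), nm2, nm2]
  have g7 : ‖(G' - w ^ (m + 4)) * (G - w)‖ ≤ 3 * m + 12 := by
    have : (G' - w ^ (m + 4)) * (G - w) = (G' * G + w ^ (m + 4) * w) - (G' * w + w ^ (m + 4) * G) := by
      ring
    rw [this]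
    refine (norm_sub_le _ _).trans ?_
    have b1 := norm_add_le (G' * G) (w ^ (m + 4) * w)
    have b2 := norm_add_le (G' * w) (w ^ (m + 4) * G)
    rw [norm_mul (w ^ (m + 4)), nw, nw'] at b1
    rw [norm_mul, norm_mul, nw, nw'] at b2
    linarith
  push_cast
  rw [div_le_div_iff₀ (by positivity) (by positivity)]
  have : (0 : ℝ) ≤ m := by positivity
  nlinarith

end Pool.Agent.H.MP_c7f57c_an
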